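import Pool.Agent.H29.ShrinkMain

namespace Pool.Agent.Results.MP_9d6213_co.NoHellyNumber

open Pool.Agent.H29.Shrink

/-- **No Helly number for continuous shrinkings exists in any dimension `d ≥ 2`.** -/
theorem result (d : ℕ) (hd : 2 ≤ d) : ¬ ∃ m : ℕ, IsHellyNumber d m :=
  no_helly_number d hd

end Pool.Agent.Results.MP_9d6213_co.NoHellyNumber
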